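import Pool.Agent.H413.G.R_seed8.H494R3.NK.Defs

set_option autoImplicit false

/-!
The uniform refinement property of `V(R)` for a von Neumann regular ring `R` (with or without unit).
-/

namespace Pool.Agent.Y78.NK

open Pool.Agent.H494R3.NK

universe u

section
variable {R : Type u} [NonUnitalRing R]

/-- every matrix of the given shape has a quasi-inverse -/
def MReg (R : Type u) [NonUnitalRing R] (m n : Type) [Fintype m] [Fintype n] : Prop :=
  ∀ x : Matrix m n R, ∃ y : Matrix n m R, x * y * x = x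

/-- if `x - x y x` has a quasi-inverse then so has `x` -/
theorem qi_of_sub {m n : Type} [Fintype m] [Fintype n] (x : Matrix m n R) (y : Matrix n m R)
    (w : Matrix n m R) (h : (x - x * y * x) * w * (x - x * y * x) = x - x * y * x) :
    ∃ z : Matrix n m R, x * z * x = x := by
  refine ⟨y + w - y * x * w - w * x * y + y * x * w * x * y, ?_⟩
  have : x * (y + w - y * x * w - w * x * y + y * x * w * x * y) * x =
      x * y * x + (x - x * y * x) * w * (x - x * y * x) := by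
    simp only [Matrix.mul_add, Matrix.add_mul, Matrix.mul_sub, Matrix.sub_mul, Matrix.mul_assoc]
    abel
  rw [this, h]
  abel

theorem fromBlocks_sub' {m m' n n' : Type} (a a' : Matrix m n R) (b b' : Matrix m n' R)
    (c c' : Matrix m' n R) (d d' : Matrix m' n' R) :
    Matrix.fromBlocks a b c d - Matrix.fromBlocks a' b' c' d' =
      Matrix.fromBlocks (a - a') (b - b') (c - c') (d - d') := by
  ext (i | i) (j | j) <;> rfl

theorem MReg.blocks {m m' n n' : Type} [Fintype m] [Fintype m'] [Fintype n] [Fintype n']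
    (h1 : MReg R m n) (h2 : MReg R m' n) (h3 : MReg R m n') (h4 : MReg R m' n') :
    MReg R (m ⊕ m') (n ⊕ n') := by
  -- lower left corner only
  have e1 : ∀ c : Matrix m' n R, ∃ z : Matrix (n ⊕ n') (m ⊕ m') R,
      (Matrix.fromBlocks 0 0 c 0 : Matrix (m ⊕ m') (n ⊕ n') R) * z *
        (Matrix.fromBlocks 0 0 c 0 : Matrix (m ⊕ m') (n ⊕ n') R) =
        (Matrix.fromBlocks 0 0 c 0 : Matrix (m ⊕ m') (n ⊕ n') R) := by
    intro c
    obtain ⟨y, hy⟩ := h2 c
    refine ⟨Matrix.fromBlocks 0 y 0 0, ?_⟩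
    simp [Matrix.fromBlocks_multiply, hy]
  -- lower triangular
  have e2 : ∀ (a : Matrix m n R) (c : Matrix m' n R) (d : Matrix m' n' R),
      ∃ z : Matrix (n ⊕ n') (m ⊕ m') R,
      (Matrix.fromBlocks a 0 c d : Matrix (m ⊕ m') (n ⊕ n') R) * z *
        (Matrix.fromBlocks a 0 c d : Matrix (m ⊕ m') (n ⊕ n') R) =
        (Matrix.fromBlocks a 0 c d : Matrix (m ⊕ m') (n ⊕ n') R) := by
    intro a c d
    obtain ⟨y, hy⟩ := h1 a
    obtain ⟨z, hz⟩ := h4 d
    have h : (Matrix.fromBlocks a 0 c d : Matrix (m ⊕ m') (n ⊕ n') R) -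
        Matrix.fromBlocks a 0 c d * Matrix.fromBlocks y 0 0 z * Matrix.fromBlocks a 0 c d =
        Matrix.fromBlocks 0 0 (c - (c * y * a + d * z * c)) 0 := by
      rw [Matrix.fromBlocks_multiply, Matrix.fromBlocks_multiply, fromBlocks_sub']
      simp [hy, hz]
    obtain ⟨w, hw⟩ := e1 (c - (c * y * a + d * z * c))
    rw [← h] at hw
    exact qi_of_sub _ _ w hw
  intro x
  obtain ⟨a, b, c, d, rfl⟩ : ∃ (a : Matrix m n R) (b : Matrix m n' R) (c : Matrix m' n R)
      (d : Matrix m' n' R), x = Matrix.fromBlocks a b c d :=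
    ⟨_, _, _, _, (Matrix.fromBlocks_toBlocks x).symm⟩
  obtain ⟨y, hy⟩ := h3 b
  have h : (Matrix.fromBlocks a b c d : Matrix (m ⊕ m') (n ⊕ n') R) -
      Matrix.fromBlocks a b c d * (Matrix.fromBlocks 0 0 y 0 : Matrix (n ⊕ n') (m ⊕ m') R) *
        Matrix.fromBlocks a b c d =
      Matrix.fromBlocks (a - b * y * a) 0 (c - d * y * a) (d - d * y * b) := by
    rw [Matrix.fromBlocks_multiply, Matrix.fromBlocks_multiply, fromBlocks_sub']
    simp [hy]
  obtain ⟨w, hw⟩ := e2 (a - b * y * a) (c - d * y * a) (d - d * y * b)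
  rw [← h] at hw
  exact qi_of_sub _ _ w hw

theorem MReg.reindex {m m' n n' : Type} [Fintype m] [Fintype m'] [Fintype n] [Fintype n']
    (σ : m ≃ m') (τ : n ≃ n') (h : MReg R m n) : MReg R m' n' := by
  intro x
  obtain ⟨y, hy⟩ := h (x.submatrix σ τ)
  refine ⟨y.submatrix τ.symm σ.symm, ?_⟩
  have h1 : x = (x.submatrix σ τ).submatrix σ.symm τ.symm := by
    ext i j
    simp
  conv_lhs => rw [h1]
  rw [Matrix.submatrix_mul_equiv, Matrix.submatrix_mul_equiv, hy, ← h1]

theorem MReg.of_isEmpty_left {m n : Type} [Fintype m] [Fintype n] [IsEmpty m] : MReg R m n :=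
  fun x => ⟨0, by ext i; exact isEmptyElim i⟩

theorem MReg.of_isEmpty_right {m n : Type} [Fintype m] [Fintype n] [IsEmpty n] : MReg R m n :=
  fun x => ⟨0, by ext i j; exact isEmptyElim j⟩

theorem mreg_fin (hR : ∀ x : R, ∃ y : R, x * y * x = x) (m n : ℕ) : MReg R (Fin m) (Fin n) := by
  have h11 : MReg R (Fin 1) (Fin 1) := by
    intro x
    obtain ⟨y, hy⟩ := hR (x 0 0)
    refine ⟨Matrix.of fun _ _ => y, ?_⟩
    ext i j
    have hi : i = 0 := Subsingleton.elim _ _
    have hj : j = 0 := Subsingleton.elim _ _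
    subst hi hj
    rw [Matrix.mul_apply, Fin.sum_univ_one, Matrix.mul_apply, Fin.sum_univ_one]
    simpa using hy
  have h1n : ∀ n : ℕ, MReg R (Fin 1) (Fin n) := by
    intro n
    induction n with
    | zero => exact MReg.of_isEmpty_right
    | succ n ih =>
      have h : MReg R (Fin 1 ⊕ Fin 0) (Fin n ⊕ Fin 1) :=
        MReg.blocks ih MReg.of_isEmpty_left h11 MReg.of_isEmpty_left
      exact h.reindex (Equiv.sumEmpty _ _) finSumFinEquiv
  induction m with
  | zero => exact MReg.of_isEmpty_left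
  | succ m ih =>
    have h : MReg R (Fin m ⊕ Fin 1) (Fin n ⊕ Fin 0) :=
      MReg.blocks ih (h1n n) MReg.of_isEmpty_right MReg.of_isEmpty_right
    exact h.reindex finSumFinEquiv (Equiv.sumEmpty _ _)

/-! ### the order of `V(R)` -/

/-- the algebraic preorder -/
def Le {M : Type u} [Add M] (a b : M) : Prop := ∃ c, a + c = b

theorem le_of_factor {m n : ℕ} {g : Matrix (Fin m) (Fin m) R} {p : Matrix (Fin n) (Fin n) R}
    (hg : g * g = g) (hp : p * p = p) (X : Matrix (Fin m) (Fin n) R) (Y : Matrix (Fin n) (Fin m) R)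
    (h : g = X * p * Y) : Le (VV.mk ⟨m, g, hg⟩) (VV.mk ⟨n, p, hp⟩) := by
  -- replace `X`, `Y` by `g X p` and `p Y g`
  obtain ⟨X', hX'⟩ : ∃ X', X' = g * X * p := ⟨_, rfl⟩
  obtain ⟨Y', hY'⟩ : ∃ Y', Y' = p * Y * g := ⟨_, rfl⟩
  have h1 : X' * Y' = g := by
    have : X' * Y' = g * (X * (p * p) * Y) * g := by
      rw [hX', hY']
      simp only [Matrix.mul_assoc]
    rw [this, hp, ← h, hg, hg]
  have h2 : g * X' = X' := by
    rw [hX', ← Matrix.mul_assoc, ← Matrix.mul_assoc, hg]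
  have h3 : Y' * g = Y' := by
    rw [hY', Matrix.mul_assoc, hg]
  have h4 : X' * p = X' := by
    rw [hX', Matrix.mul_assoc, hp]
  have h5 : p * Y' = Y' := by
    rw [hY', ← Matrix.mul_assoc, ← Matrix.mul_assoc, hp]
  obtain ⟨q, hq⟩ : ∃ q, q = Y' * X' := ⟨_, rfl⟩
  have hqq : q * q = q := by
    rw [hq, Matrix.mul_assoc, ← Matrix.mul_assoc X', h1, h2]
  have hpq : p * q = q := by rw [hq, ← Matrix.mul_assoc, h5]
  have hqp : q * p = q := by rw [hq, Matrix.mul_assoc, h4]
  have hr : (p - q) * (p - q) = p - q := by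
    rw [Matrix.mul_sub, Matrix.sub_mul, Matrix.sub_mul, hp, hpq, hqp, hqq]
    abel
  refine ⟨VV.mk ⟨n, p - q, hr⟩, ?_⟩
  rw [VV.add_mk, VV.mk_eq]
  show Eqv (blk g (p - q)) p
  have hb := idem_blocks hg hr
  refine Eqv.trans (blk_idem hg hr) hp (Eqv.blk hg hr).symm ?_
  refine ⟨Matrix.fromRows X' (p - q), Matrix.fromCols Y' (p - q), ?_, ?_⟩
  · rw [rowcol]
    have e1 : X' * (p - q) = 0 := by
      rw [Matrix.mul_sub, h4, hq, ← Matrix.mul_assoc, h1, h2, sub_self]
    have e2 : (p - q) * Y' = 0 := by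
      rw [Matrix.sub_mul, h5, hq, Matrix.mul_assoc, h1, h3, sub_self]
    rw [h1, e1, e2, hr]
  · rw [colrow, ← hq, hr]
    abel

theorem le_add_of_factor {m n k : ℕ} {g : Matrix (Fin m) (Fin m) R}
    {p : Matrix (Fin n) (Fin n) R} {q : Matrix (Fin k) (Fin k) R}
    (hg : g * g = g) (hp : p * p = p) (hq : q * q = q)
    (X : Matrix (Fin m) (Fin n) R) (Y : Matrix (Fin n) (Fin m) R)
    (X' : Matrix (Fin m) (Fin k) R) (Y' : Matrix (Fin k) (Fin m) R)
    (h : g = X * p * Y + X' * q * Y') :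
    Le (VV.mk ⟨m, g, hg⟩) (VV.mk ⟨n, p, hp⟩ + VV.mk ⟨k, q, hq⟩) := by
  rw [VV.add_mk]
  refine le_of_factor hg (blk_idem hp hq)
    ((Matrix.fromCols X X').submatrix id finSumFinEquiv.symm)
    ((Matrix.fromRows Y Y').submatrix finSumFinEquiv.symm id) ?_
  rw [blk, Matrix.submatrix_mul_equiv, Matrix.submatrix_mul_equiv]
  have : Matrix.fromCols X X' * Matrix.fromBlocks p 0 0 q =
      Matrix.fromCols (X * p) (X' * q) := by
    ext i (j | j)
    · rw [Matrix.mul_apply, Fintype.sum_sum_type]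
      simp [Matrix.mul_apply]
    · rw [Matrix.mul_apply, Fintype.sum_sum_type]
      simp [Matrix.mul_apply]
  rw [this, colrow, h]
  rfl

/-- splitting an idempotent matrix along a decomposition of its class -/
theorem split_mat {m : ℕ} {E : Matrix (Fin m) (Fin m) R} (hE : E * E = E) (x y : VV R)
    (h : x + y = VV.mk ⟨m, E, hE⟩) : ∃ (e : Matrix (Fin m) (Fin m) R) (he : e * e = e)
      (hf : (E - e) * (E - e) = E - e), E * e = e ∧ e * E = e ∧
        VV.mk ⟨m, e, he⟩ = x ∧ VV.mk ⟨m, E - e, hf⟩ = y := by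
  obtain ⟨⟨a, X, hX⟩, rfl⟩ := Quotient.exists_rep x
  obtain ⟨⟨b, Y, hY⟩, rfl⟩ := Quotient.exists_rep y
  have h1 : Eqv (blk X Y) E := VV.mk_eq.1 h
  have h2 : Eqv (Matrix.fromBlocks X 0 0 Y) E :=
    Eqv.trans (idem_blocks hX hY) hE (Eqv.blk hX hY) h1
  obtain ⟨v, u, hvu, huv⟩ := h2
  obtain ⟨P, hP⟩ : ∃ P, P = (Matrix.fromBlocks X 0 0 0 : Matrix (Fin a ⊕ Fin b) (Fin a ⊕ Fin b) R) :=
    ⟨_, rfl⟩
  obtain ⟨Q, hQ⟩ : ∃ Q, Q = (Matrix.fromBlocks 0 0 0 Y : Matrix (Fin a ⊕ Fin b) (Fin a ⊕ Fin b) R) :=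
    ⟨_, rfl⟩
  have hPP : P * P = P := by
    rw [hP, Matrix.fromBlocks_multiply]
    simp [hX]
  have hQQ : Q * Q = Q := by
    rw [hQ, Matrix.fromBlocks_multiply]
    simp [hY]
  have hPQ : P + Q = v * u := by
    rw [hvu, hP, hQ, Matrix.fromBlocks_add]
    simp
  have hPQ0 : P * Q = 0 := by
    rw [hP, hQ, Matrix.fromBlocks_multiply]
    simp
  have hQP0 : Q * P = 0 := by
    rw [hP, hQ, Matrix.fromBlocks_multiply]
    simp
  have eP : P * (v * u) = P := by rw [← hPQ, Matrix.mul_add, hPP, hPQ0, add_zero]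
  have eQ : Q * (v * u) = Q := by rw [← hPQ, Matrix.mul_add, hQQ, hQP0, zero_add]
  have eP' : (v * u) * P = P := by rw [← hPQ, Matrix.add_mul, hPP, hQP0, add_zero]
  have eQ' : (v * u) * Q = Q := by rw [← hPQ, Matrix.add_mul, hQQ, hPQ0, zero_add]
  have huE : u * (v * u) * v = E := by
    rw [← Matrix.mul_assoc, huv, Matrix.mul_assoc, huv, hE]
  have hsum : u * P * v + u * Q * v = E := by
    rw [← Matrix.add_mul, ← Matrix.mul_add, hPQ, huE]
  have he : (u * P * v) * (u * P * v) = u * P * v := by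
    have : (u * P * v) * (u * P * v) = u * (P * (v * u) * P) * v := by
      simp only [Matrix.mul_assoc]
    rw [this, eP, hPP]
  have hf : (u * Q * v) * (u * Q * v) = u * Q * v := by
    have : (u * Q * v) * (u * Q * v) = u * (Q * (v * u) * Q) * v := by
      simp only [Matrix.mul_assoc]
    rw [this, eQ, hQQ]
  have hEf : E - u * P * v = u * Q * v := by
    rw [← hsum]
    abel
  have hf' : (E - u * P * v) * (E - u * P * v) = E - u * P * v := by rw [hEf, hf]
  have i1 : Eqv (u * P * v) P := by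
    refine ⟨u * P, P * v, ?_, ?_⟩
    · rw [Matrix.mul_assoc, ← Matrix.mul_assoc P, hPP, ← Matrix.mul_assoc]
    · have : P * v * (u * P) = P * (v * u) * P := by simp only [Matrix.mul_assoc]
      rw [this, eP, hPP]
  have i2 : Eqv (u * Q * v) Q := by
    refine ⟨u * Q, Q * v, ?_, ?_⟩
    · rw [Matrix.mul_assoc, ← Matrix.mul_assoc Q, hQQ, ← Matrix.mul_assoc]
    · have : Q * v * (u * Q) = Q * (v * u) * Q := by simp only [Matrix.mul_assoc]
      rw [this, eQ, hQQ]
  have j1 : Eqv P X := by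
    rw [hP]
    exact Eqv.stab hX
  have j2 : Eqv Q Y := by
    rw [hQ]
    refine ⟨Matrix.fromRows 0 Y, Matrix.fromCols 0 Y, ?_, ?_⟩
    · rw [rowcol]
      simp [hY]
    · rw [colrow]
      simp [hY]
  refine ⟨u * P * v, he, hf', ?_, ?_, ?_, ?_⟩
  · have : E * (u * P * v) = u * ((v * u) * P) * v := by
      rw [← huv]
      simp only [Matrix.mul_assoc]
    rw [this, eP']
  · have : (u * P * v) * E = u * (P * (v * u)) * v := by
      rw [← huv]
      simp only [Matrix.mul_assoc]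
    rw [this, eP]
  · exact VV.mk_eq.2 (Eqv.trans he hX i1 j1)
  · refine VV.mk_eq.2 ?_
    show Eqv (E - u * P * v) Y
    rw [hEf]
    exact Eqv.trans hf hY i2 j2

/-- The uniform refinement property of `V(R)`, `R` von Neumann regular. -/
theorem urp (hR : ∀ x : R, ∃ y : R, x * y * x = x) {I : Type} (e : VV R) (a b : I → VV R)
    (hab : ∀ i, a i + b i = e) :
    ∃ c : I → I → VV R, ∀ i j k, Le (c i j) (a i) ∧ Le (c i j) (b j) ∧
      Le (a i) (a j + c i j) ∧ Le (c i k) (c i j + c j k) := by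
  classical
  obtain ⟨⟨m, E, hE⟩, rfl⟩ := Quotient.exists_rep e
  have h1 : ∀ i, ∃ (p : Matrix (Fin m) (Fin m) R) (he : p * p = p)
      (hf : (E - p) * (E - p) = E - p), E * p = p ∧ p * E = p ∧
        VV.mk ⟨m, p, he⟩ = a i ∧ VV.mk ⟨m, E - p, hf⟩ = b i :=
    fun i => split_mat hE (a i) (b i) (hab i)
  choose p hp hf hEp hpE ha hb using h1
  have h2 : ∀ i j, ∃ y : Matrix (Fin m) (Fin m) R,
      (p i - p j * p i) * y * (p i - p j * p i) = p i - p j * p i := fun i j =>
    mreg_fin hR m m _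
  choose y hy using h2
  obtain ⟨x, hx⟩ : ∃ x : I → I → Matrix (Fin m) (Fin m) R, ∀ i j, x i j = p i - p j * p i :=
    ⟨fun i j => p i - p j * p i, fun _ _ => rfl⟩
  have hy' : ∀ i j, x i j * y i j * x i j = x i j := by
    intro i j
    rw [hx]
    exact hy i j
  obtain ⟨g, hgd⟩ : ∃ g : I → I → Matrix (Fin m) (Fin m) R, ∀ i j, g i j = x i j * y i j :=
    ⟨fun i j => x i j * y i j, fun _ _ => rfl⟩
  have hg : ∀ i j, g i j * g i j = g i j := by
    intro i j
    rw [hgd, ← Matrix.mul_assoc, hy']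
  have hgx : ∀ i j, g i j * x i j = x i j := by
    intro i j
    rw [hgd, hy']
  have hEx : ∀ i j, x i j = (E - p j) * p i := by
    intro i j
    rw [hx, Matrix.sub_mul, hEp]
  refine ⟨fun i j => VV.mk ⟨m, g i j, hg i j⟩, fun i j k => ⟨?_, ?_, ?_, ?_⟩⟩
  · rw [← ha i]
    refine le_of_factor (hg i j) (hp i) (E - p j) (y i j) ?_
    rw [hgd, hEx]
  · rw [← hb j]
    refine le_of_factor (hg i j) (hf j) E (p i * y i j) ?_
    rw [hgd, hEx, Matrix.mul_sub E, hE, hEp, Matrix.mul_assoc]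
  · rw [← ha i, ← ha j]
    refine le_add_of_factor (hp i) (hp j) (hg i j) (p j) (p i) (g i j) (x i j) ?_
    rw [hp j, hg i j, hgx, hx]
    abel
  · show Le (VV.mk ⟨m, g i k, hg i k⟩) (VV.mk ⟨m, g i j, hg i j⟩ + VV.mk ⟨m, g j k, hg j k⟩)
    refine le_add_of_factor (hg i k) (hg i j) (hg j k) (E - p k) (x i j * y i k)
      (g j k) (x j k * p i * y i k) ?_
    have e1 : (E - p k) * g i j * (x i j * y i k) = (E - p k) * x i j * y i k := by
      rw [Matrix.mul_assoc, ← Matrix.mul_assoc (g i j), hgx, ← Matrix.mul_assoc]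
    have e2 : g j k * g j k * (x j k * p i * y i k) = x j k * p i * y i k := by
      rw [hg, ← Matrix.mul_assoc, ← Matrix.mul_assoc, hgx]
    rw [e1, e2, hgd, ← Matrix.add_mul]
    congr 1
    rw [hEx j k, Matrix.mul_assoc, ← Matrix.mul_add, hEx i k, hx i j]
    congr 1
    abel

end

end Pool.Agent.Y78.NK
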