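import Pool.Agent.H413.G.R_seed8.Y78.NK.RR
import Pool.Agent.H413.G.R_seed8.Y78.NK.Inv
import Pool.Agent.H413.G.R_seed8.Y78.NK.Fam

set_option autoImplicit false

/-!
A C*-algebra of real rank zero whose monoid `V` is not that of a von Neumann regular ring.
-/

namespace Pool.Agent.Y78.NK

open Pool.Agent.H494R3.NK
open scoped Matrix.Norms.L2Operator

universe u

section
variable (F : Fam) (I : Type)

/-- the class of `t ↦ P (t i)` -/
noncomputable def cA (i : I) : VV (Alg F I) := cl1 (pr F I i) (pr_idem F I i)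

/-- the class of the complement -/
noncomputable def cB (i : I) : VV (Alg F I) :=
  cl1 (1 - pr F I i) (one_sub_idem (pr_idem F I i))

theorem rk_cA (t : I → T) (i : I) (q : M2) (hq : q * q = q)
    (hc : ∀ i, q * F.P (t i) = F.P (t i) * q) :
    ((rk (evq F I t q hq hc) (cA F I i) : ℕ) : ℂ) = (F.P (t i) * q).trace := by
  rw [rk_cast]
  exact rkC_cl1 _ _ _

theorem rk_cB (t : I → T) (i : I) (q : M2) (hq : q * q = q)
    (hc : ∀ i, q * F.P (t i) = F.P (t i) * q) :
    ((rk (evq F I t q hq hc) (cB F I i) : ℕ) : ℂ) = ((1 - F.P (t i)) * q).trace := by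
  rw [rk_cast]
  exact rkC_cl1 _ _ _

theorem zero_of_eq {c : VV (Alg F I)} {i j : I} (h1 : Le c (cA F I i)) (h2 : Le c (cB F I j))
    (t : I → T) (hij : F.P (t i) = F.P (t j))
    (hc : ∀ l, F.P (t i) * F.P (t l) = F.P (t l) * F.P (t i)) :
    rk (ev F I t) c = 0 := by
  rw [rk_split F I t (F.P (t i)) (F.idem _) hc]
  have e1 : rk (evq F I t (F.P (t i)) (F.idem _) hc) (cB F I j) = 0 := by
    have := rk_cB F I t j (F.P (t i)) (F.idem _) hc
    rw [← hij, sub_mul, one_mul, F.idem, sub_self, Matrix.trace_zero] at this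
    exact_mod_cast this
  have e2 : rk (evq F I t (1 - F.P (t i)) (compl_idem (F.idem _)) fun l => compl_comm (hc l))
      (cA F I i) = 0 := by
    have := rk_cA F I t i (1 - F.P (t i)) (compl_idem (F.idem _)) fun l => compl_comm (hc l)
    rw [mul_sub, mul_one, F.idem, sub_self, Matrix.trace_zero] at this
    exact_mod_cast this
  have f1 := rk_le (evq F I t (F.P (t i)) (F.idem _) hc) h2
  have f2 := rk_le (evq F I t (1 - F.P (t i)) (compl_idem (F.idem _)) fun l => compl_comm (hc l)) h1
  omega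

theorem pos_of_orth {c : VV (Alg F I)} {i j : I} (h : Le (cA F I i) (cA F I j + c))
    (t : I → T) (hij : F.P (t j) = 1 - F.P (t i)) (htr : (F.P (t i)).trace = 1)
    (hc : ∀ l, F.P (t i) * F.P (t l) = F.P (t l) * F.P (t i)) :
    1 ≤ rk (ev F I t) c := by
  rw [rk_split F I t (F.P (t i)) (F.idem _) hc]
  have e1 : rk (evq F I t (F.P (t i)) (F.idem _) hc) (cA F I i) = 1 := by
    have := rk_cA F I t i (F.P (t i)) (F.idem _) hc
    rw [F.idem, htr] at this
    exact_mod_cast this
  have e2 : rk (evq F I t (F.P (t i)) (F.idem _) hc) (cA F I j) = 0 := by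
    have := rk_cA F I t j (F.P (t i)) (F.idem _) hc
    rw [hij, sub_mul, one_mul, F.idem, sub_self, Matrix.trace_zero] at this
    exact_mod_cast this
  have f1 := rk_le (evq F I t (F.P (t i)) (F.idem _) hc) h
  rw [rk_add] at f1
  omega

end

/-- uniformity of a locally constant function near the diagonal -/
theorem unif (F : Fam) (G : T × T → ℕ) (hG : Continuous G)
    (h0 : ∀ a b, (F.P a).trace = 1 → F.P a = F.P b → G (a, b) = 0) :
    ∃ δ : ℝ, 0 < δ ∧ ∀ a b, (F.P a).trace = 1 → ‖F.P a - F.P b‖ < δ → G (a, b) = 0 := by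
  have hP := F.cont
  have hN : IsCompact {x : T × T | G x ≠ 0 ∧ (F.P x.1).trace = 1} := by
    apply IsClosed.isCompact
    apply IsClosed.inter
    · exact (isClosed_discrete {n : ℕ | n ≠ 0}).preimage hG
    · exact isClosed_eq (Continuous.matrix_trace (hP.comp continuous_fst)) continuous_const
  rcases Set.eq_empty_or_nonempty {x : T × T | G x ≠ 0 ∧ (F.P x.1).trace = 1} with he | hne
  · refine ⟨1, one_pos, fun a b ha _ => ?_⟩
    by_contra hcon
    have : (a, b) ∈ {x : T × T | G x ≠ 0 ∧ (F.P x.1).trace = 1} := ⟨hcon, ha⟩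
    rw [he] at this
    exact this
  · obtain ⟨x, hx, hmin⟩ := hN.exists_isMinOn hne
      (f := fun x : T × T => ‖F.P x.1 - F.P x.2‖)
      ((hP.comp continuous_fst).sub (hP.comp continuous_snd)).norm.continuousOn
    refine ⟨‖F.P x.1 - F.P x.2‖, ?_, ?_⟩
    · rw [norm_pos_iff, sub_ne_zero]
      intro h
      exact hx.1 (h0 x.1 x.2 hx.2 h)
    · intro a b ha hab
      by_contra hcon
      have hm : (a, b) ∈ {x : T × T | G x ≠ 0 ∧ (F.P x.1).trace = 1} := ⟨hcon, ha⟩
      have h1 := isMinOn_iff.1 hmin (a, b) hm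
      exact absurd hab (not_lt.2 h1)

/-- the point with three prescribed coordinates -/
noncomputable def pt {I : Type} (z : T) (i j k : I) (a b c : T) : I → T := by
  classical
  exact Function.update (Function.update (Function.update (fun _ => z) k c) j b) i a

theorem pt_i {I : Type} (z : T) (i j k : I) (a b c : T) : pt z i j k a b c i = a := by
  classical
  simp [pt]

theorem pt_j {I : Type} (z : T) {i j k : I} (hij : i ≠ j) (a b c : T) :
    pt z i j k a b c j = b := by
  classical
  simp [pt, Function.update_of_ne hij.symm]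

theorem pt_k {I : Type} (z : T) {i j k : I} (hik : i ≠ k) (hjk : j ≠ k) (a b c : T) :
    pt z i j k a b c k = c := by
  classical
  simp [pt, Function.update_of_ne hik.symm, Function.update_of_ne hjk.symm]

theorem pt_other {I : Type} (z : T) {i j k l : I} (hi : l ≠ i) (hj : l ≠ j) (hk : l ≠ k)
    (a b c : T) : pt z i j k a b c l = z := by
  classical
  simp [pt, Function.update_of_ne hi, Function.update_of_ne hj, Function.update_of_ne hk]

theorem pt_cases {I : Type} (z : T) {i j k : I} (hij : i ≠ j) (hik : i ≠ k) (hjk : j ≠ k)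
    (a b c : T) (l : I) : pt z i j k a b c l = a ∨ pt z i j k a b c l = b ∨
      pt z i j k a b c l = c ∨ pt z i j k a b c l = z := by
  by_cases h1 : l = i
  · subst h1
    exact Or.inl (pt_i _ _ _ _ _ _ _)
  by_cases h2 : l = j
  · subst h2
    exact Or.inr (Or.inl (pt_j _ hij _ _ _))
  by_cases h3 : l = k
  · subst h3
    exact Or.inr (Or.inr (Or.inl (pt_k _ hik hjk _ _ _)))
  exact Or.inr (Or.inr (Or.inr (pt_other _ h1 h2 h3 _ _ _)))

theorem pt_congr_k {I : Type} (z : T) {i j k : I} (a b c c' : T) (S : Finset I) (hk : k ∉ S) :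
    ∀ l ∈ S, pt z i j k a b c l = pt z i j k a b c' l := by
  classical
  intro l hl
  have h3 : l ≠ k := fun h => hk (h ▸ hl)
  by_cases h1 : l = i
  · subst h1
    rw [pt_i, pt_i]
  by_cases h2 : l = j
  · subst h2
    rw [pt_j _ (Ne.symm h1), pt_j _ (Ne.symm h1)]
  rw [pt_other _ h1 h2 h3, pt_other _ h1 h2 h3]

theorem pt_congr_j {I : Type} (z : T) {i j k : I} (a b b' c : T) (S : Finset I)
    (hj : j ∉ S) : ∀ l ∈ S, pt z i j k a b c l = pt z i j k a b' c l := by
  classical
  intro l hl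
  have h3 : l ≠ j := fun h => hj (h ▸ hl)
  by_cases h1 : l = i
  · subst h1
    rw [pt_i, pt_i]
  by_cases h2 : l = k
  · subst h2
    rw [pt_k _ (Ne.symm h1) (Ne.symm h3), pt_k _ (Ne.symm h1) (Ne.symm h3)]
  rw [pt_other _ h1 h3 h2, pt_other _ h1 h3 h2]

theorem pt_congr_i {I : Type} (z : T) {i j k : I} (a a' b c : T) (S : Finset I)
    (hi : i ∉ S) : ∀ l ∈ S, pt z i j k a b c l = pt z i j k a' b c l := by
  classical
  intro l hl
  have h3 : l ≠ i := fun h => hi (h ▸ hl)
  simp [pt, Function.update_of_ne h3]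

theorem pt_cont_bc {I : Type} (z : T) (i j k : I) (s : T) :
    Continuous fun x : T × T => pt z i j k s x.1 x.2 := by
  classical
  unfold pt
  fun_prop

theorem main_false (F : Fam) (z : T) (hz : F.P z = 0)
    (hrot : ∀ θ ∈ Set.Icc (0 : ℝ) (Real.pi / 2), ∃ s, F.P s = Rot θ)
    (c : Ind → Ind → VV (Alg F Ind))
    (hc : ∀ i j k, Le (c i j) (cA F Ind i) ∧ Le (c i j) (cB F Ind j) ∧
      Le (cA F Ind i) (cA F Ind j + c i j) ∧ Le (c i k) (c i j + c j k)) : False := by
  classical
  have hS : ∀ i j, ∃ S : Finset Ind, ∀ t t' : Ind → T, (∀ l ∈ S, t l = t' l) →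
      rk (ev F Ind t) (c i j) = rk (ev F Ind t') (c i j) :=
    fun i j => fin_dep Ind _ (rk_cont F Ind (c i j))
  choose S hS using hS
  obtain ⟨i, j, k, hk, hj, hi⟩ := free3 (fun j k => S j k ∪ S k j ∪ {j, k})
    (fun i k => S i k ∪ {i, k}) (fun i j => S i j ∪ {i, j})
  simp only [Finset.mem_union, Finset.mem_insert, Finset.mem_singleton, not_or] at hi hj hk
  have hij : i ≠ j := hi.2.1
  have hik : i ≠ k := hi.2.2
  have hjk : j ≠ k := hj.2.2
  -- points with three coordinates
  obtain ⟨t, ht⟩ : ∃ t : T → T → T → (Ind → T), ∀ a b c, t a b c = pt z i j k a b c :=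
    ⟨fun a b c => pt z i j k a b c, fun _ _ _ => rfl⟩
  have comm_of : ∀ (a : T) (t' : Ind → T), (∀ l, t' l = a ∨ F.P (t' l) = F.P a ∨
      F.P (t' l) = 1 - F.P a ∨ F.P (t' l) = 0) → ∀ l, F.P a * F.P (t' l) = F.P (t' l) * F.P a := by
    intro a t' h l
    rcases h l with h | h | h | h
    · rw [h]
    · rw [h]
    · rw [h, mul_sub, sub_mul, mul_one, one_mul]
    · rw [h, mul_zero, zero_mul]
  -- uniformity for the pairs `jk` and `kj`
  obtain ⟨δ1, hδ1, u1⟩ := unif F (fun x => rk (ev F Ind (pt z i j k z x.1 x.2)) (c j k))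
    ((rk_cont F Ind (c j k)).comp (pt_cont_bc z i j k z)) (by
      intro a b ha hab
      refine zero_of_eq F Ind (hc j k j).1 (hc j k j).2.1 _ ?_ ?_
      · rw [pt_j z hij, pt_k z hik hjk]
        exact hab
      · rw [pt_j z hij]
        apply comm_of
        intro l
        rcases pt_cases z hij hik hjk z a b l with h | h | h | h
        · exact Or.inr (Or.inr (Or.inr (by rw [h, hz])))
        · exact Or.inl h
        · exact Or.inr (Or.inl (by rw [h, hab]))
        · exact Or.inr (Or.inr (Or.inr (by rw [h, hz]))))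
  obtain ⟨δ2, hδ2, u2⟩ := unif F (fun x => rk (ev F Ind (pt z i j k z x.2 x.1)) (c k j))
    ((rk_cont F Ind (c k j)).comp ((pt_cont_bc z i j k z).comp continuous_swap)) (by
      intro a b ha hab
      refine zero_of_eq F Ind (hc k j k).1 (hc k j k).2.1 _ ?_ ?_
      · rw [pt_k z hik hjk, pt_j z hij]
        exact hab
      · rw [pt_k z hik hjk]
        apply comm_of
        intro l
        rcases pt_cases z hij hik hjk z b a l with h | h | h | h
        · exact Or.inr (Or.inr (Or.inr (by rw [h, hz])))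
        · exact Or.inr (Or.inl (by rw [h, hab]))
        · exact Or.inl h
        · exact Or.inr (Or.inr (Or.inr (by rw [h, hz]))))
  -- a fine chain of angles
  have huc := (isCompact_Icc (a := (0 : ℝ)) (b := Real.pi / 2)).uniformContinuousOn_of_continuous
    rot_cont.continuousOn
  rw [Metric.uniformContinuousOn_iff] at huc
  obtain ⟨η, hη, hη'⟩ := huc (min δ1 δ2) (lt_min hδ1 hδ2)
  have hpi := Real.pi_pos
  obtain ⟨m, hm⟩ := exists_nat_gt (Real.pi / 2 / η)
  have hm0 : (0 : ℝ) < m := lt_trans (by positivity) hm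
  have hang : ∀ r : ℕ, r ≤ m → (r : ℝ) * (Real.pi / 2 / m) ∈ Set.Icc (0 : ℝ) (Real.pi / 2) := by
    intro r hr
    constructor
    · positivity
    · have h1 : (r : ℝ) ≤ m := by exact_mod_cast hr
      calc (r : ℝ) * (Real.pi / 2 / m) ≤ m * (Real.pi / 2 / m) := by gcongr
        _ = Real.pi / 2 := by field_simp
  have hch : ∃ s : ℕ → T, ∀ r ≤ m, F.P (s r) = Rot ((r : ℝ) * (Real.pi / 2 / m)) := by
    have : ∀ r : ℕ, ∃ s, r ≤ m → F.P s = Rot ((r : ℝ) * (Real.pi / 2 / m)) := by
      intro r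
      by_cases hr : r ≤ m
      · obtain ⟨s, hs⟩ := hrot _ (hang r hr)
        exact ⟨s, fun _ => hs⟩
      · exact ⟨z, fun h => absurd h hr⟩
    choose s hs using this
    exact ⟨s, fun r hr => hs r hr⟩
  obtain ⟨s, hs⟩ := hch
  have hstep : ∀ r, r + 1 ≤ m → ‖F.P (s r) - F.P (s (r + 1))‖ < min δ1 δ2 := by
    intro r hr
    rw [hs r (by omega), hs (r + 1) hr, ← dist_eq_norm]
    refine hη' _ (hang r (by omega)) _ (hang (r + 1) hr) ?_
    rw [Real.dist_eq]
    have : (r : ℝ) * (Real.pi / 2 / m) - ((r + 1 : ℕ) : ℝ) * (Real.pi / 2 / m) =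
        -(Real.pi / 2 / m) := by
      push_cast
      ring
    rw [this, abs_neg, abs_of_pos (by positivity), div_lt_iff₀ hm0]
    rw [div_lt_iff₀ hη] at hm
    linarith
  have htrs : ∀ r ≤ m, (F.P (s r)).trace = 1 := fun r hr => by rw [hs r hr, rot_trace]
  -- independence of the third coordinate
  have ind_ij : ∀ a b c₁ c₂, rk (ev F Ind (t a b c₁)) (c i j) = rk (ev F Ind (t a b c₂)) (c i j) := by
    intro a b c₁ c₂
    rw [ht, ht]
    exact hS i j _ _ (pt_congr_k z a b c₁ c₂ _ hk.1)
  have ind_ik : ∀ a b₁ b₂ c', rk (ev F Ind (t a b₁ c')) (c i k) =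
      rk (ev F Ind (t a b₂ c')) (c i k) := by
    intro a b₁ b₂ c'
    rw [ht, ht]
    exact hS i k _ _ (pt_congr_j z a b₁ b₂ c' _ hj.1)
  have ind_jk : ∀ a₁ a₂ b c', rk (ev F Ind (t a₁ b c')) (c j k) =
      rk (ev F Ind (t a₂ b c')) (c j k) := by
    intro a₁ a₂ b c'
    rw [ht, ht]
    exact hS j k _ _ (pt_congr_i z a₁ a₂ b c' _ hi.1.1)
  have ind_kj : ∀ a₁ a₂ b c', rk (ev F Ind (t a₁ b c')) (c k j) =
      rk (ev F Ind (t a₂ b c')) (c k j) := by
    intro a₁ a₂ b c'
    rw [ht, ht]
    exact hS k j _ _ (pt_congr_i z a₁ a₂ b c' _ hi.1.2)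
  -- the induction
  have main : ∀ r, r ≤ m → (∀ x, rk (ev F Ind (t (s 0) (s r) x)) (c i j) = 0) ∧
      ∀ x, rk (ev F Ind (t (s 0) x (s r))) (c i k) = 0 := by
    intro r
    induction r with
    | zero =>
      intro _
      have hcm : ∀ l, F.P (s 0) * F.P (t (s 0) (s 0) (s 0) l) =
          F.P (t (s 0) (s 0) (s 0) l) * F.P (s 0) := by
        apply comm_of
        intro l
        rw [ht]
        rcases pt_cases z hij hik hjk (s 0) (s 0) (s 0) l with h | h | h | h
        · exact Or.inl h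
        · exact Or.inl h
        · exact Or.inl h
        · exact Or.inr (Or.inr (Or.inr (by rw [h, hz])))
      have ti : t (s 0) (s 0) (s 0) i = s 0 := by rw [ht]; exact pt_i _ _ _ _ _ _ _
      have tj : t (s 0) (s 0) (s 0) j = s 0 := by rw [ht]; exact pt_j _ hij _ _ _
      have tk : t (s 0) (s 0) (s 0) k = s 0 := by rw [ht]; exact pt_k _ hik hjk _ _ _
      constructor
      · intro x
        rw [ind_ij _ _ x (s 0)]
        exact zero_of_eq F Ind (hc i j i).1 (hc i j i).2.1 _ (by rw [ti, tj])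
          (by rw [ti]; exact hcm)
      · intro x
        rw [ind_ik _ x (s 0) _]
        exact zero_of_eq F Ind (hc i k i).1 (hc i k i).2.1 _ (by rw [ti, tk])
          (by rw [ti]; exact hcm)
    | succ r ih =>
      intro hr
      obtain ⟨h1, h2⟩ := ih (by omega)
      have hst := hstep r hr
      have a1 : rk (ev F Ind (t (s 0) (s r) (s (r + 1)))) (c j k) = 0 := by
        rw [ind_jk _ z]
        have := u1 (s r) (s (r + 1)) (htrs r (by omega)) (lt_of_lt_of_le hst (min_le_left _ _))
        rw [ht]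
        exact this
      have a2 : rk (ev F Ind (t (s 0) (s (r + 1)) (s r))) (c k j) = 0 := by
        rw [ind_kj _ z]
        have := u2 (s r) (s (r + 1)) (htrs r (by omega)) (lt_of_lt_of_le hst (min_le_right _ _))
        rw [ht]
        exact this
      have b1 := rk_le (ev F Ind (t (s 0) (s r) (s (r + 1)))) (hc i j k).2.2.2
      rw [rk_add, a1, h1] at b1
      have b2 := rk_le (ev F Ind (t (s 0) (s (r + 1)) (s r))) (hc i k j).2.2.2
      rw [rk_add, a2, h2] at b2
      constructor
      · intro x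
        rw [ind_ij _ _ x (s r)]
        omega
      · intro x
        rw [ind_ik _ x (s r) _]
        omega
  have h0 := (main m le_rfl).1 (s m)
  have ti : t (s 0) (s m) (s m) i = s 0 := by rw [ht]; exact pt_i _ _ _ _ _ _ _
  have tj : t (s 0) (s m) (s m) j = s m := by rw [ht]; exact pt_j _ hij _ _ _
  have hend : F.P (s m) = 1 - F.P (s 0) := by
    rw [hs m le_rfl, hs 0 (Nat.zero_le _)]
    have e1 : (m : ℝ) * (Real.pi / 2 / m) = Real.pi / 2 := by field_simp
    have e2 : ((0 : ℕ) : ℝ) * (Real.pi / 2 / m) = 0 := by simp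
    rw [e1, e2, rot_end]
  have h1 := pos_of_orth F Ind (hc i j i).2.2.1 (t (s 0) (s m) (s m)) (by rw [ti, tj]; exact hend)
    (by rw [ti]; exact htrs 0 (Nat.zero_le _)) (by
      rw [ti]
      apply comm_of
      intro l
      rw [ht]
      rcases pt_cases z hij hik hjk (s 0) (s m) (s m) l with h | h | h | h
      · exact Or.inl h
      · exact Or.inr (Or.inr (Or.inl (by rw [h, hend])))
      · exact Or.inr (Or.inr (Or.inl (by rw [h, hend])))
      · exact Or.inr (Or.inr (Or.inr (by rw [h, hz]))))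
  omega

theorem le_of_equiv {M : Type u} {N : Type} [AddCommMonoid M] [AddCommMonoid N] (e : N ≃+ M)
    {a b : M} (h : Le a b) : Le (e.symm a) (e.symm b) := by
  obtain ⟨c, rfl⟩ := h
  exact ⟨e.symm c, (map_add e.symm a c).symm⟩

/-- A C*-algebra of real rank zero such that `V(A)` is not isomorphic to `V(R)` for any von Neumann
regular ring `R`. -/
theorem main : ∃ (A : Type) (_ : CStarAlgebra A), RealRankZero A ∧
    ∀ (R : Type u) [NonUnitalRing R], (∀ x : R, ∃ y : R, x * y * x = x) →
      ¬ Nonempty (VV A ≃+ VV R) := by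
  obtain ⟨F, ⟨z, hz⟩, hrot⟩ := exists_fam
  refine ⟨Alg F Ind, inferInstance, alg_rr0 F Ind, ?_⟩
  rintro R _ hR ⟨e⟩
  obtain ⟨c, hc⟩ := urp hR (e (cl1 (1 : Alg F Ind) (one_mul 1))) (fun i => e (cA F Ind i))
    (fun i => e (cB F Ind i)) (by
      intro i
      rw [← map_add]
      congr 1
      exact cl1_add (pr F Ind i) (pr_idem F Ind i))
  refine main_false F z hz hrot (fun i j => e.symm (c i j)) ?_
  intro i j k
  obtain ⟨h1, h2, h3, h4⟩ := hc i j k
  refine ⟨?_, ?_, ?_, ?_⟩
  · have := le_of_equiv e h1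
    rwa [e.symm_apply_apply] at this
  · have := le_of_equiv e h2
    rwa [e.symm_apply_apply] at this
  · have := le_of_equiv e h3
    rwa [map_add, e.symm_apply_apply, e.symm_apply_apply] at this
  · have := le_of_equiv e h4
    rwa [map_add] at this

end Pool.Agent.Y78.NK
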